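import Pool.Agent.L5helper7.DS.Low

/-!
# Base 3: progressions in words given by walks in the carry graph
-/

set_option autoImplicit false

namespace Pool.Agent.L5helper7.D3

open Finset Equiv
open Pool.Agent.L5helper7.DS (FreeW SymW)

/-- the value of a list of digits, the lowest digit first -/
def num : List (Fin 3) → ℤ
  | [] => 0
  | a :: L => ((a : ℕ) : ℤ) + 3 * num L

theorem num_append (L M : List (Fin 3)) : num (L ++ M) = num L + 3 ^ L.length * num M := by
  induction L with
  | nil => simp [num]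
  | cons a L ih =>
    simp only [List.cons_append, num, ih, List.length_cons, pow_succ]
    ring

/-- the columns `X`, `Z`, `Y` transform the carry `δ` into `δ'` -/
def Blk (δ : ℤ) (X Z Y : List (Fin 3)) (δ' : ℤ) : Prop :=
  X.length = Y.length ∧ Z.length = Y.length ∧ num X + num Z + δ = 2 * num Y + 3 ^ Y.length * δ'

theorem Blk.app {δ δ' δ'' : ℤ} {X Z Y X' Z' Y' : List (Fin 3)} (h : Blk δ X Z Y δ') (h' : Blk δ' X' Z' Y' δ'') :
    Blk δ (X ++ X') (Z ++ Z') (Y ++ Y') δ'' := by
  obtain ⟨h1, h2, h3⟩ := h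
  obtain ⟨h4, h5, h6⟩ := h'
  refine ⟨by simp [h1, h4], by simp [h2, h5], ?_⟩
  rw [num_append, num_append, num_append, List.length_append, h1, h2, pow_add]
  linear_combination h3 + 3 ^ Y.length * h6

/-- repetition -/
def rep (k : ℕ) (L : List (Fin 3)) : List (Fin 3) := (List.replicate k L).flatten

theorem rep_succ (k : ℕ) (L : List (Fin 3)) : rep (k + 1) L = L ++ rep k L := by
  simp [rep, List.replicate_succ]

theorem rep_count (k : ℕ) (L : List (Fin 3)) (a : Fin 3) : (rep k L).count a = k * L.count a := by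
  induction k with
  | zero => simp [rep]
  | succ k ih =>
    rw [rep_succ, List.count_append, ih]
    ring

theorem Blk.rep {δ : ℤ} {X Z Y : List (Fin 3)} (h : Blk δ X Z Y δ) (k : ℕ) :
    Blk δ (rep k X) (rep k Z) (rep k Y) δ := by
  induction k with
  | zero => exact ⟨rfl, rfl, by simp [D3.rep, num]⟩
  | succ k ih =>
    rw [rep_succ, rep_succ, rep_succ]
    exact h.app ih

theorem Blk.same (R : List (Fin 3)) : Blk 0 R R R 0 := ⟨rfl, rfl, by ring⟩

variable {n : ℕ} {B : Finset (Fin n → Fin 3)}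

/-- the list is a word of `B` -/
def Mem (B : Finset (Fin n → Fin 3)) (L : List (Fin 3)) : Prop := ∃ u ∈ B, List.ofFn u = L

theorem val_succ {n : ℕ} (t : Fin (n + 1) → Fin 3) :
    DS.val t = (t 0 : ℕ) + 3 * DS.val (fun i : Fin n => t i.succ) := by
  unfold DS.val
  rw [Fin.sum_univ_succ, mul_sum]
  congr 1
  · simp
  · refine sum_congr rfl fun i _ => ?_
    rw [Fin.val_succ, pow_succ]
    ring

theorem num_ofFn : ∀ {n : ℕ} (u : Fin n → Fin 3), num (List.ofFn u) = ((DS.val u : ℕ) : ℤ) := by
  intro n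
  induction n with
  | zero => intro u; simp [num, DS.val]
  | succ n ih =>
    intro u
    rw [List.ofFn_succ, num, ih, val_succ]
    push_cast
    ring

theorem count_ofFn {n : ℕ} (f : Fin n → Fin 3) (b : Fin 3) :
    (List.ofFn f).count b = (univ.filter (fun i => f i = b)).card := by
  have h : ((univ : Finset (Fin n)).val.map f : Multiset (Fin 3)) = (List.ofFn f : Multiset (Fin 3)) :=
    Fin.univ_val_map f
  rw [← Multiset.coe_count, ← h, Multiset.count_map, Finset.card_def, Finset.filter_val]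
  congr 1
  exact Multiset.filter_congr fun x _ => eq_comm

theorem mem_perm (hS : SymW B) {L M : List (Fin 3)} (h : L.Perm M) (hL : Mem B L) : Mem B M := by
  obtain ⟨u, hu, rfl⟩ := hL
  have hlen : M.length = n := by rw [← h.length_eq, List.length_ofFn]
  subst hlen
  obtain ⟨σ, hσ⟩ := Pool.Agent.H287R3.RA.AP.exists_perm M.get u (by
    intro b
    rw [Fintype.card_subtype, Fintype.card_subtype, ← count_ofFn, ← count_ofFn, List.ofFn_get, h.count_eq])
  refine ⟨fun i => u (σ i), hS σ u hu, ?_⟩
  rw [← funext hσ, List.ofFn_get]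

/-- the word `0^i 1^j 2^k` -/
def ty (i j k : ℕ) : List (Fin 3) := List.replicate i 0 ++ (List.replicate j 1 ++ List.replicate k 2)

/-- `B` contains the words with `i` zeros, `j` ones and `k` twos -/
def Ty (B : Finset (Fin n → Fin 3)) (i j k : ℕ) : Prop := Mem B (ty i j k)

theorem perm_ty {L : List (Fin 3)} {i j k : ℕ} (h0 : L.count 0 = i) (h1 : L.count 1 = j) (h2 : L.count 2 = k) :
    (ty i j k).Perm L := by
  rw [List.perm_iff_count]
  intro a
  fin_cases a <;> simp [ty, List.count_append, List.count_replicate, h0, h1, h2]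

theorem Ty.mem (hS : SymW B) {L : List (Fin 3)} {i j k : ℕ} (hT : Ty B i j k) (h0 : L.count 0 = i)
    (h1 : L.count 1 = j) (h2 : L.count 2 = k) : Mem B L := mem_perm hS (perm_ty h0 h1 h2) hT

theorem Ty.of (hS : SymW B) {u : Fin n → Fin 3} (hu : u ∈ B) :
    Ty B (univ.filter (fun i => u i = 0)).card (univ.filter (fun i => u i = 1)).card
      (univ.filter (fun i => u i = 2)).card := by
  refine mem_perm hS (perm_ty ?_ ?_ ?_).symm ⟨u, hu, rfl⟩ <;> exact count_ofFn _ _

theorem conflict (hF : FreeW B) {X Z Y : List (Fin 3)} (h : Blk 0 X Z Y 0) (hX : Mem B X) (hZ : Mem B Z)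
    (hY : Mem B Y) : X = Z := by
  obtain ⟨u, hu, rfl⟩ := hX
  obtain ⟨w, hw, rfl⟩ := hZ
  obtain ⟨v, hv, rfl⟩ := hY
  have h1 := h.2.2
  rw [num_ofFn, num_ofFn, num_ofFn] at h1
  have h2 : DS.val u + DS.val w = 2 * DS.val v := by
    have h3 : ((DS.val u : ℕ) : ℤ) + ((DS.val w : ℕ) : ℤ) = 2 * ((DS.val v : ℕ) : ℤ) := by linarith
    exact_mod_cast h3
  rw [hF u hu v hv w hw h2]

theorem full (hF : FreeW B) (hS : SymW B) {i j k : ℕ} (h : Ty B (i + 1) (j + 1) (k + 1)) : False := by
  have hb : Blk 0 ([1, 0, 2] ++ ty i j k) ([2, 0, 1] ++ ty i j k) ([0, 2, 1] ++ ty i j k) 0 :=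
    Blk.app ⟨rfl, rfl, by decide⟩ (Blk.same _)
  have h1 := conflict hF hb (h.mem hS (by simp [ty, List.count_replicate]) (by simp [ty, List.count_replicate])
    (by simp [ty, List.count_replicate])) (h.mem hS (by simp [ty, List.count_replicate])
    (by simp [ty, List.count_replicate]) (by simp [ty, List.count_replicate]))
    (h.mem hS (by simp [ty, List.count_replicate]) (by simp [ty, List.count_replicate])
    (by simp [ty, List.count_replicate]))
  simp at h1

end Pool.Agent.L5helper7.D3
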