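import Pool.Agent.L5helper7.D3.Conf

/-!
# Base 3: symmetric progression-free sets have at most `(1 + O(1/n)) 2 ^ n` elements
-/

set_option autoImplicit false

namespace Pool.Agent.L5helper7.D3

open Finset Equiv
open Pool.Agent.L5helper7.DS (FreeW SymW)

open Classical in
/-- the number of the subsets `S` of `{1, ..., n}` with `P #S` -/
noncomputable def M (n : ℕ) (P : ℕ → Prop) : ℕ := #{S : Finset (Fin n) | P #S}

variable {n : ℕ} {B : Finset (Fin n → Fin 3)}

theorem M_mono {P Q : ℕ → Prop} (h : ∀ i, P i → Q i) : M n P ≤ M n Q := by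
  classical
  exact card_le_card fun S hS => by
    rw [mem_filter] at hS ⊢
    exact ⟨hS.1, h _ hS.2⟩

open Classical in
theorem mem_M {P : ℕ → Prop} {S : Finset (Fin n)} : S ∈ (univ.filter (fun S : Finset (Fin n) => P #S)) ↔ P #S := by
  rw [mem_filter]
  exact ⟨fun h => h.2, fun h => ⟨mem_univ _, h⟩⟩

theorem M_split (P Q : ℕ → Prop) : M n P ≤ M n (fun i => P i ∧ Q i) + M n (fun i => ¬ Q i) := by
  classical
  unfold M
  refine le_trans (card_le_card fun S hS => ?_) (card_union_le _ _)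
  rw [mem_union]
  have hP : P #S := mem_M.1 hS
  by_cases h : Q #S
  · exact Or.inl ((mem_M (P := fun i => P i ∧ Q i)).2 ⟨hP, h⟩)
  · exact Or.inr ((mem_M (P := fun i => ¬ Q i)).2 h)

theorem M_disj {P Q : ℕ → Prop} (h : ∀ i, P i → Q i → False) : M n P + M n Q ≤ 2 ^ n := by
  classical
  unfold M
  rw [← card_union_of_disjoint]
  · refine (card_le_univ _).trans ?_
    rw [Fintype.card_finset, Fintype.card_fin]
  · rw [disjoint_left]
    intro S h1 h2
    rw [mem_filter] at h1 h2
    exact h _ h1.2 h2.2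

theorem M_compl (P : ℕ → Prop) : M n P ≤ M n (fun i => P (n - i)) := by
  classical
  unfold M
  refine card_le_card_of_injOn (fun S => Sᶜ) (fun S hS => ?_) (fun S _ T _ h => compl_injective h)
  rw [mem_coe, mem_filter] at hS ⊢
  refine ⟨mem_univ _, ?_⟩
  have h1 : #S ≤ n := by
    have := card_le_univ S
    rwa [Fintype.card_fin] at this
  show P (n - #(Sᶜ))
  rw [card_compl, Fintype.card_fin]
  have h2 : n - (n - #S) = #S := by omega
  rw [h2]
  exact hS.2

theorem var (n : ℕ) : ∑ S : Finset (Fin n), ((2 : ℝ) * (#S : ℝ) - n) ^ 2 = n * 2 ^ n := by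
  have h1 : ∑ S : Finset (Fin n), ((2 : ℝ) * (#S : ℝ) - n) ^ 2 =
      ∑ k ∈ range (n + 1), (n.choose k : ℝ) * ((2 : ℝ) * (k : ℝ) - n) ^ 2 := by
    have h2 := Finset.sum_powerset_apply_card (fun k : ℕ => ((2 : ℝ) * (k : ℝ) - n) ^ 2) (x := (univ : Finset (Fin n)))
    rw [powerset_univ, card_univ, Fintype.card_fin] at h2
    rw [h2]
    exact sum_congr rfl fun k _ => by rw [nsmul_eq_mul]
  rw [h1]
  have h3 := congrArg (Polynomial.eval (1 / 2 : ℝ)) (bernsteinPolynomial.variance ℝ n)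
  rw [Polynomial.eval_finsetSum] at h3
  have h4 : ∀ k ∈ range (n + 1), Polynomial.eval (1 / 2 : ℝ) ((n • Polynomial.X - (k : Polynomial ℝ)) ^ 2 * bernsteinPolynomial ℝ n k) =
      (n.choose k : ℝ) * ((2 : ℝ) * (k : ℝ) - n) ^ 2 * (1 / (4 * 2 ^ n)) := by
    intro k hk
    have hk1 : k ≤ n := by
      have := mem_range.1 hk
      omega
    have e : ((1 : ℝ) / 2) ^ k * (1 - 1 / 2) ^ (n - k) = 1 / 2 ^ n := by
      have e1 : (1 : ℝ) - 1 / 2 = 1 / 2 := by norm_num
      rw [e1, ← pow_add, show k + (n - k) = n by omega, one_div_pow]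
    rw [bernsteinPolynomial]
    simp only [Polynomial.eval_mul, Polynomial.eval_pow, Polynomial.eval_sub, Polynomial.eval_X,
      Polynomial.eval_natCast, Polynomial.eval_one, nsmul_eq_mul]
    have e2 : ((n : ℝ) * (1 / 2) - k) ^ 2 * (↑(n.choose k) * (1 / 2) ^ k * (1 - 1 / 2) ^ (n - k)) =
        ((n : ℝ) * (1 / 2) - k) ^ 2 * (n.choose k : ℝ) * ((1 / 2) ^ k * (1 - 1 / 2) ^ (n - k)) := by ring
    rw [e2, e]
    field_simp
    ring
  rw [sum_congr rfl h4, ← sum_mul] at h3
  have h5 : Polynomial.eval (1 / 2 : ℝ) (n • Polynomial.X * (1 - Polynomial.X)) = (n : ℝ) / 4 := by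
    simp only [Polynomial.eval_mul, Polynomial.eval_sub, Polynomial.eval_X, Polynomial.eval_one, nsmul_eq_mul,
      Polynomial.eval_natCast]
    ring
  rw [h5] at h3
  have h6 : (0 : ℝ) < 4 * 2 ^ n := by positivity
  field_simp at h3
  linarith

theorem M_out (hn : 1 ≤ n) : (M n (fun i => ¬ Ce n i) : ℝ) * n ≤ 16 * 2 ^ n := by
  classical
  have hnR : (0 : ℝ) < n := by exact_mod_cast hn
  have h1 : (M n (fun i => ¬ Ce n i) : ℝ) * ((n : ℝ) ^ 2 / 16) ≤ n * 2 ^ n := by
    rw [← var n]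
    unfold M
    rw [card_eq_sum_ones]
    push_cast
    rw [sum_mul]
    refine le_trans (sum_le_sum fun S hS => ?_) (sum_le_sum_of_subset_of_nonneg (filter_subset _ _) fun S _ _ => sq_nonneg _)
    rw [mem_filter] at hS
    rw [one_mul]
    have h2 := hS.2
    unfold Ce at h2
    rw [not_and_or, not_le, not_le] at h2
    have h3 : ((n : ℝ) / 4) ^ 2 ≤ ((2 : ℝ) * (#S : ℝ) - n) ^ 2 := by
      rw [sq_le_sq, abs_of_pos (by positivity)]
      rcases h2 with h | h
      · have h4 : (8 : ℝ) * #S < 3 * n := by exact_mod_cast h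
        rw [abs_of_neg (by linarith)]
        linarith
      · have h4 : (5 : ℝ) * n < 8 * #S := by exact_mod_cast h
        rw [abs_of_pos (by linarith)]
        linarith
    refine le_trans (le_of_eq ?_) h3
    ring
  have h2 : (M n (fun i => ¬ Ce n i) : ℝ) * n * (n / 16) ≤ 16 * 2 ^ n * (n / 16) := by nlinarith
  exact le_of_mul_le_mul_right h2 (by positivity)

theorem part (x y z : Fin 3) (hd : ∀ d : Fin 3, d = x ∨ d = y ∨ d = z) (hxy : x ≠ y) (Q : ℕ → Prop)
    (hQ : ∀ u ∈ B, #{t | u t = z} = 0 → #{t | u t = x} = n - #{t | u t = y} → Q #{t | u t = y}) :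
    #(B.filter (fun u => ∀ t, u t ≠ z)) ≤ M n Q := by
  classical
  unfold M
  refine card_le_card_of_injOn (fun u => univ.filter (fun t => u t = y)) (fun u hu => ?_) (fun u hu v hv h => ?_)
  · rw [mem_coe, mem_filter] at hu
    rw [mem_coe, mem_filter]
    refine ⟨mem_univ _, hQ u hu.1 ?_ ?_⟩
    · rw [card_eq_zero, filter_eq_empty_iff]
      exact fun t _ => hu.2 t
    · have h1 : (univ.filter (fun t => u t = x)) = (univ.filter (fun t => u t = y))ᶜ := by
        ext t
        rw [mem_compl, mem_filter, mem_filter]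
        have h2 := hd (u t)
        have h3 := hu.2 t
        constructor
        · rintro ⟨_, h4⟩ ⟨_, h5⟩
          exact hxy (h4 ▸ h5)
        · intro h4
          refine ⟨mem_univ _, ?_⟩
          rcases h2 with h5 | h5 | h5
          · exact h5
          · exact absurd ⟨mem_univ _, h5⟩ h4
          · exact absurd h5 h3
      rw [h1, card_compl, Fintype.card_fin]
  · rw [mem_coe, mem_filter] at hu hv
    funext t
    have h1 : t ∈ univ.filter (fun t => u t = y) ↔ t ∈ univ.filter (fun t => v t = y) := by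
      simp only at h
      rw [h]
    rw [mem_filter, mem_filter] at h1
    have h2 := hd (u t)
    have h3 := hd (v t)
    have h4 := hu.2 t
    have h5 := hv.2 t
    by_cases h6 : u t = y
    · rw [h6, (h1.1 ⟨mem_univ _, h6⟩).2]
    · have h7 : ¬ v t = y := fun h8 => h6 (h1.2 ⟨mem_univ _, h8⟩).2
      rw [(h2.resolve_right (by rintro (h | h) <;> contradiction)), (h3.resolve_right (by rintro (h | h) <;> contradiction))]

theorem cover3 (hF : FreeW B) (hS : SymW B) :
    #B ≤ M n (fun i => Ty B (n - i) i 0) + M n (fun i => Ty B 0 (n - i) i) + M n (fun i => Ty B (n - i) 0 i) := by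
  classical
  have h1 := part (B := B) 0 1 2 (by decide) (by decide) (fun i => Ty B (n - i) i 0) (by
    intro u hu h2 h0
    have h := Ty.of hS hu
    rwa [h2, h0] at h)
  have h2 := part (B := B) 1 2 0 (by decide) (by decide) (fun i => Ty B 0 (n - i) i) (by
    intro u hu h2 h0
    have h := Ty.of hS hu
    rwa [h2, h0] at h)
  have h3 := part (B := B) 0 2 1 (by decide) (by decide) (fun i => Ty B (n - i) 0 i) (by
    intro u hu h2 h0
    have h := Ty.of hS hu
    rwa [h2, h0] at h)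
  have h4 : B ⊆ B.filter (fun u => ∀ t, u t ≠ 2) ∪ B.filter (fun u => ∀ t, u t ≠ 0) ∪ B.filter (fun u => ∀ t, u t ≠ 1) := by
    intro u hu
    rw [mem_union, mem_union, mem_filter, mem_filter, mem_filter]
    by_contra hcon
    have h5 : ∀ d : Fin 3, (¬ ∀ t, u t ≠ d) → ∃ k, #{t | u t = d} = k + 1 := by
      intro d hd
      push Not at hd
      obtain ⟨t, ht⟩ := hd
      have h6 : 0 < #{t | u t = d} := card_pos.2 ⟨t, by rw [mem_filter]; exact ⟨mem_univ _, ht⟩⟩
      exact ⟨#{t | u t = d} - 1, by omega⟩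
    obtain ⟨i, hi⟩ := h5 0 fun h => hcon (Or.inl (Or.inr ⟨hu, h⟩))
    obtain ⟨j, hj⟩ := h5 1 fun h => hcon (Or.inr ⟨hu, h⟩)
    obtain ⟨k, hk⟩ := h5 2 fun h => hcon (Or.inl (Or.inl ⟨hu, h⟩))
    have h := Ty.of hS hu
    rw [hi, hj, hk] at h
    exact full hF hS h
  have h5 := (card_le_card h4).trans ((card_union_le _ _).trans (Nat.add_le_add_right (card_union_le _ _) _))
  omega

/-- the upper bound -/
theorem upper3 (hF : FreeW B) (hS : SymW B) (hn : 100 ≤ n) :
    #B ≤ 2 ^ n + 3 * M n (fun i => ¬ Ce n i) := by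
  classical
  obtain ⟨N, hN⟩ : ∃ N, N = M n (fun i => ¬ Ce n i) := ⟨_, rfl⟩
  have h0 := cover3 hF hS
  have ha := M_split (n := n) (fun i => Ty B (n - i) i 0) (Ce n)
  have hc := M_split (n := n) (fun i => Ty B 0 (n - i) i) (Ce n)
  have he := M_split (n := n) (fun i => Ty B (n - i) 0 i) (Ce n)
  rw [← hN] at ha hc he ⊢
  have hzero : ∀ P : ℕ → Prop, (∀ i, ¬ P i) → M n P = 0 := by
    intro P hP
    unfold M
    rw [card_eq_zero, filter_eq_empty_iff]
    exact fun S _ => hP _
  by_cases hE : ∃ m, Ce n m ∧ Ty B (n - m) 0 m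
  · obtain ⟨m, hm, hem⟩ := hE
    by_cases hA : ∃ i, Ce n i ∧ Ty B (n - i) i 0
    · obtain ⟨i, hi, hai⟩ := hA
      have hi2 : i % 2 = 1 := by
        by_contra h
        exact ae2 hF hS hn hi hm (by omega) hai hem
      have hC : ∀ j, ¬ (Ty B 0 (n - j) j ∧ Ce n j) := by
        rintro j ⟨hcj, hj⟩
        have hjn : n - (n - j) = j := by
          have := hj.2
          omega
        have h1 : (n - j) % 2 = 1 := by
          by_contra h
          refine ce2 hF hS hn (j := n - j) (m := m) ?_ hm (by omega) (by rwa [hjn]) hem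
          have h2 := hj.1
          have h3 := hj.2
          exact ⟨by omega, by omega⟩
        have h4 := hj.2
        exact ace hF hS hn hi hj hm (by omega) hai hcj hem
      have h1 := hzero _ hC
      have h2 := M_disj (n := n) (P := fun i => Ty B (n - i) i 0 ∧ Ce n i) (Q := fun i => Ty B (n - i) 0 i ∧ Ce n i)
        (fun i h3 h4 => ae hF hS hn h3.2 h3.1 h4.1)
      omega
    · have h1 := hzero (fun i => Ty B (n - i) i 0 ∧ Ce n i) (fun i h => hA ⟨i, h.2, h.1⟩)
      have h2 := M_disj (n := n) (P := fun i => Ty B 0 (n - i) i ∧ Ce n i) (Q := fun i => Ty B (n - i) 0 i ∧ Ce n i)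
        (fun i h3 h4 => ce hF hS hn h3.2 h3.1 h4.1)
      omega
  · have h1 := hzero (fun i => Ty B (n - i) 0 i ∧ Ce n i) (fun i h => hE ⟨i, h.2, h.1⟩)
    have h2 := M_compl (n := n) (fun i => Ty B 0 (n - i) i ∧ Ce n i)
    have h3 := M_disj (n := n) (P := fun i => Ty B (n - i) i 0 ∧ Ce n i) (Q := fun i => Ty B 0 (n - (n - i)) (n - i) ∧ Ce n (n - i))
      (fun i h4 h5 => by
        refine ac hF hS hn h4.2 h4.1 ?_
        have h6 : n - (n - i) = i := by
          have := h4.2.2
          omega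
        have h7 := h5.1
        rwa [h6] at h7)
    omega

theorem upper3R (hF : FreeW B) (hS : SymW B) (hn : 100 ≤ n) : (#B : ℝ) ≤ 2 ^ n * (1 + 48 / n) := by
  have h1 := upper3 hF hS hn
  have h2 := M_out (n := n) (by omega)
  have hnR : (0 : ℝ) < n := by
    have : 0 < n := by omega
    exact_mod_cast this
  have h3 : (#B : ℝ) ≤ 2 ^ n + 3 * (M n (fun i => ¬ Ce n i) : ℝ) := by exact_mod_cast h1
  have h4 : (M n (fun i => ¬ Ce n i) : ℝ) ≤ 16 * 2 ^ n / n := by
    rw [le_div_iff₀ hnR]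
    exact h2
  have e : (2 : ℝ) ^ n * (1 + 48 / n) = 2 ^ n + 3 * (16 * 2 ^ n / n) := by ring
  rw [e]
  linarith

/-- the lower bound: the digits 0 and 1 -/
theorem lower3 (n : ℕ) : ∃ B : Finset (Fin n → Fin 3), FreeW B ∧ SymW B ∧ #B = 2 ^ n := by
  classical
  refine ⟨Fintype.piFinset (fun _ => {0, 1}), ?_, ?_, ?_⟩
  · intro u hu v hv w hw h
    rw [Fintype.mem_piFinset] at hu hv hw
    have hlt : ∀ x : Fin 3, x ∈ ({0, 1} : Finset (Fin 3)) → (x : ℕ) < (3 + 1) / 2 := by decide
    have h1 := DS.no_carry (b := 3) (by norm_num) u v w (fun i => hlt _ (hu i)) (fun i => hlt _ (hv i)) (fun i => hlt _ (hw i)) h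
    funext i
    have h2 := h1 i
    have h3 := hlt _ (hu i)
    have h4 := hlt _ (hv i)
    have h5 := hlt _ (hw i)
    apply Fin.ext
    omega
  · intro σ u hu
    rw [Fintype.mem_piFinset] at hu ⊢
    exact fun i => hu (σ i)
  · rw [Fintype.card_piFinset]
    simp

end Pool.Agent.L5helper7.D3
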