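import Pool.Agent.L5helper7.D3.Carry

/-!
# Base 3: conflicts between the types of the words of a symmetric progression-free set
-/

set_option autoImplicit false

namespace Pool.Agent.L5helper7.D3

open Finset Equiv
open Pool.Agent.L5helper7.DS (FreeW SymW)

variable {n : ℕ} {B : Finset (Fin n → Fin 3)}

theorem c2 (hF : FreeW B) (hS : SymW B) {r s : ℕ} (h1 : Ty B (s + 1) (r + 1) 0) (h2 : Ty B (s + 1) 0 (r + 1)) :
    False := by
  have k1 : Blk 0 [1] [0] [2] (-1) := ⟨rfl, rfl, by decide⟩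
  have k2 : Blk (-1) [1] [1] [2] (-1) := ⟨rfl, rfl, by decide⟩
  have k3 : Blk (-1) [0] [1] [0] 0 := ⟨rfl, rfl, by decide⟩
  have k4 : Blk 0 [0] [0] [0] 0 := ⟨rfl, rfl, by decide⟩
  have k := k1.app ((k2.rep r).app (k3.app (k4.rep s)))
  have e := conflict hF k
    (h1.mem hS (by simp [rep_count]; try ring) (by simp [rep_count]; try ring) (by simp [rep_count]))
    (h1.mem hS (by simp [rep_count]; try ring) (by simp [rep_count]; try ring) (by simp [rep_count]))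
    (h2.mem hS (by simp [rep_count]; try ring) (by simp [rep_count]) (by simp [rep_count]; try ring))
  simp at e

theorem c2' (hF : FreeW B) (hS : SymW B) {r s : ℕ} (h1 : Ty B 0 (s + 1) (r + 1)) (h2 : Ty B (s + 1) 0 (r + 1)) :
    False := by
  have k1 : Blk 0 [1] [2] [0] 1 := ⟨rfl, rfl, by decide⟩
  have k2 : Blk 1 [1] [1] [0] 1 := ⟨rfl, rfl, by decide⟩
  have k3 : Blk 1 [2] [1] [2] 0 := ⟨rfl, rfl, by decide⟩
  have k4 : Blk 0 [2] [2] [2] 0 := ⟨rfl, rfl, by decide⟩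
  have k := k1.app ((k2.rep s).app (k3.app (k4.rep r)))
  have e := conflict hF k
    (h1.mem hS (by simp [rep_count]) (by simp [rep_count]; try ring) (by simp [rep_count]; try ring))
    (h1.mem hS (by simp [rep_count]) (by simp [rep_count]; try ring) (by simp [rep_count]; try ring))
    (h2.mem hS (by simp [rep_count]; try ring) (by simp [rep_count]) (by simp [rep_count]; try ring))
  simp at e

theorem c3 (hF : FreeW B) (hS : SymW B) {r s : ℕ} (h1 : Ty B (s + 1) (r + 1) 0) (h2 : Ty B 0 (r + 1) (s + 1)) :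
    False := by
  have k1 : Blk 0 [1] [2] [0] 1 := ⟨rfl, rfl, by decide⟩
  have k2 : Blk 1 [0] [2] [0] 1 := ⟨rfl, rfl, by decide⟩
  have k3 : Blk 1 [0] [1] [1] 0 := ⟨rfl, rfl, by decide⟩
  have k4 : Blk 0 [1] [1] [1] 0 := ⟨rfl, rfl, by decide⟩
  have k := k1.app ((k2.rep s).app (k3.app (k4.rep r)))
  have e := conflict hF k
    (h1.mem hS (by simp [rep_count]; try ring) (by simp [rep_count]; try ring) (by simp [rep_count]))
    (h2.mem hS (by simp [rep_count]) (by simp [rep_count]; try ring) (by simp [rep_count]; try ring))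
    (h1.mem hS (by simp [rep_count]; try ring) (by simp [rep_count]; try ring) (by simp [rep_count]))
  simp at e

theorem c5 (hF : FreeW B) (hS : SymW B) {c g d a : ℕ} (h1 : Ty B (d + g + a) (4 * c + 2 * g + 4) 0)
    (h2 : Ty B (2 + 2 * c + 2 * g + a) 0 (d + g + 2 * c + 2)) : False := by
  have b1 : Blk 0 [1] [0] [2] (-1) := ⟨rfl, rfl, by decide⟩
  have b2 : Blk (-1) [0] [2] [2] (-1) := ⟨rfl, rfl, by decide⟩
  have b3 : Blk (-1) [1] [0] [0] 0 := ⟨rfl, rfl, by decide⟩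
  have b4 : Blk 0 [1, 1] [0, 0] [2, 0] 0 := ⟨rfl, rfl, by decide⟩
  have b5 : Blk 0 [1] [2] [0] 1 := ⟨rfl, rfl, by decide⟩
  have b6 : Blk 1 [0] [2] [0] 1 := ⟨rfl, rfl, by decide⟩
  have b7 : Blk 1 [1] [2] [2] 0 := ⟨rfl, rfl, by decide⟩
  have b8 : Blk 0 [1, 1] [2, 2] [0, 2] 0 := ⟨rfl, rfl, by decide⟩
  have b9 : Blk 0 [0] [0] [0] 0 := ⟨rfl, rfl, by decide⟩
  have k := b1.app ((b2.rep d).app (b3.app ((b4.rep (c + g)).app (b5.app ((b6.rep g).app (b7.app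
    ((b8.rep c).app (b9.rep a))))))))
  have e := conflict hF k
    (h1.mem hS (by simp [rep_count]; try ring) (by simp [rep_count]; try ring) (by simp [rep_count]))
    (h2.mem hS (by simp [rep_count]; try ring) (by simp [rep_count]) (by simp [rep_count]; try ring))
    (h2.mem hS (by simp [rep_count]; try ring) (by simp [rep_count]) (by simp [rep_count]; try ring))
  simp at e

theorem c5' (hF : FreeW B) (hS : SymW B) {c g d a : ℕ} (h1 : Ty B 0 (4 * c + 2 * g + 4) (d + g + a))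
    (h2 : Ty B (d + g + 2 * c + 2) 0 (2 + 2 * c + 2 * g + a)) : False := by
  have b1 : Blk 0 [1] [2] [0] 1 := ⟨rfl, rfl, by decide⟩
  have b2 : Blk 1 [2] [0] [0] 1 := ⟨rfl, rfl, by decide⟩
  have b3 : Blk 1 [1] [2] [2] 0 := ⟨rfl, rfl, by decide⟩
  have b4 : Blk 0 [1, 1] [2, 2] [0, 2] 0 := ⟨rfl, rfl, by decide⟩
  have b5 : Blk 0 [1] [0] [2] (-1) := ⟨rfl, rfl, by decide⟩
  have b6 : Blk (-1) [2] [0] [2] (-1) := ⟨rfl, rfl, by decide⟩
  have b7 : Blk (-1) [1] [0] [0] 0 := ⟨rfl, rfl, by decide⟩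
  have b8 : Blk 0 [1, 1] [0, 0] [2, 0] 0 := ⟨rfl, rfl, by decide⟩
  have b9 : Blk 0 [2] [2] [2] 0 := ⟨rfl, rfl, by decide⟩
  have k := b1.app ((b2.rep d).app (b3.app ((b4.rep (c + g)).app (b5.app ((b6.rep g).app (b7.app
    ((b8.rep c).app (b9.rep a))))))))
  have e := conflict hF k
    (h1.mem hS (by simp [rep_count]) (by simp [rep_count]; try ring) (by simp [rep_count]; try ring))
    (h2.mem hS (by simp [rep_count]; try ring) (by simp [rep_count]) (by simp [rep_count]; try ring))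
    (h2.mem hS (by simp [rep_count]; try ring) (by simp [rep_count]) (by simp [rep_count]; try ring))
  simp at e

theorem c6 (hF : FreeW B) (hS : SymW B) {α α' p q p' q' : ℕ} (h1 : Ty B (p + p' + 2 * α' + 2) (q + q' + 2 * α + 2) 0)
    (h2 : Ty B 0 (q + q' + 2 * α' + 2) (p + p' + 2 * α + 2))
    (h3 : Ty B (p + q + α + α' + 2) 0 (p' + q' + α + α' + 2)) : False := by
  have b1 : Blk 0 [1] [2] [0] 1 := ⟨rfl, rfl, by decide⟩
  have b2 : Blk 1 [0] [2] [0] 1 := ⟨rfl, rfl, by decide⟩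
  have b3 : Blk 1 [1] [1] [0] 1 := ⟨rfl, rfl, by decide⟩
  have b4 : Blk 1 [1] [2] [2] 0 := ⟨rfl, rfl, by decide⟩
  have b5 : Blk 0 [1, 1] [2, 2] [0, 2] 0 := ⟨rfl, rfl, by decide⟩
  have b6 : Blk 0 [0] [1] [2] (-1) := ⟨rfl, rfl, by decide⟩
  have b7 : Blk (-1) [0] [2] [2] (-1) := ⟨rfl, rfl, by decide⟩
  have b8 : Blk (-1) [1] [1] [2] (-1) := ⟨rfl, rfl, by decide⟩
  have b9 : Blk (-1) [0] [1] [0] 0 := ⟨rfl, rfl, by decide⟩
  have b10 : Blk 0 [0, 0] [1, 1] [2, 0] 0 := ⟨rfl, rfl, by decide⟩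
  have k := b1.app ((b2.rep p).app ((b3.rep q).app (b4.app ((b5.rep α).app (b6.app ((b7.rep p').app
    ((b8.rep q').app (b9.app (b10.rep α')))))))))
  have e := conflict hF k
    (h1.mem hS (by simp [rep_count]; try ring) (by simp [rep_count]; try ring) (by simp [rep_count]))
    (h2.mem hS (by simp [rep_count]) (by simp [rep_count]; try ring) (by simp [rep_count]; try ring))
    (h3.mem hS (by simp [rep_count]; try ring) (by simp [rep_count]) (by simp [rep_count]; try ring))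
  simp at e

/-- the middle range -/
def Ce (n i : ℕ) : Prop := 3 * n ≤ 8 * i ∧ 8 * i ≤ 5 * n

theorem ae (hF : FreeW B) (hS : SymW B) (hn : 100 ≤ n) {i : ℕ} (hi : Ce n i) (h1 : Ty B (n - i) i 0)
    (h2 : Ty B (n - i) 0 i) : False := by
  obtain ⟨hi1, hi2⟩ := hi
  obtain ⟨s, hs⟩ : ∃ s, n - i = s + 1 := ⟨n - i - 1, by omega⟩
  obtain ⟨r, rfl⟩ : ∃ r, i = r + 1 := ⟨i - 1, by omega⟩
  rw [hs] at h1 h2
  exact c2 hF hS h1 h2

theorem ce (hF : FreeW B) (hS : SymW B) (hn : 100 ≤ n) {i : ℕ} (hi : Ce n i) (h1 : Ty B 0 (n - i) i)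
    (h2 : Ty B (n - i) 0 i) : False := by
  obtain ⟨hi1, hi2⟩ := hi
  obtain ⟨s, hs⟩ : ∃ s, n - i = s + 1 := ⟨n - i - 1, by omega⟩
  obtain ⟨r, rfl⟩ : ∃ r, i = r + 1 := ⟨i - 1, by omega⟩
  rw [hs] at h1 h2
  exact c2' hF hS h1 h2

theorem ac (hF : FreeW B) (hS : SymW B) (hn : 100 ≤ n) {i : ℕ} (hi : Ce n i) (h1 : Ty B (n - i) i 0)
    (h2 : Ty B 0 i (n - i)) : False := by
  obtain ⟨hi1, hi2⟩ := hi
  obtain ⟨s, hs⟩ : ∃ s, n - i = s + 1 := ⟨n - i - 1, by omega⟩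
  obtain ⟨r, rfl⟩ : ∃ r, i = r + 1 := ⟨i - 1, by omega⟩
  rw [hs] at h1 h2
  exact c3 hF hS h1 h2

theorem ae2 (hF : FreeW B) (hS : SymW B) (hn : 100 ≤ n) {j m : ℕ} (hj : Ce n j) (hm : Ce n m) (h2j : j % 2 = 0)
    (h1 : Ty B (n - j) j 0) (h2 : Ty B (n - m) 0 m) : False := by
  obtain ⟨hj1, hj2⟩ := hj
  obtain ⟨hm1, hm2⟩ := hm
  obtain ⟨c, g, hcg, hg⟩ : ∃ c g, j = 4 * c + 2 * g + 4 ∧ g ≤ 1 := ⟨(j - 4) / 4, (j - 4) % 4 / 2, by omega, by omega⟩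
  obtain ⟨d, hd⟩ : ∃ d, m = d + g + 2 * c + 2 := ⟨m - (g + 2 * c + 2), by omega⟩
  obtain ⟨a, ha⟩ : ∃ a, n - m = 2 + 2 * c + 2 * g + a := ⟨n - m - (2 + 2 * c + 2 * g), by omega⟩
  have e1 : n - j = d + g + a := by omega
  rw [e1, hcg] at h1
  rw [ha, hd] at h2
  exact c5 hF hS h1 h2

theorem ce2 (hF : FreeW B) (hS : SymW B) (hn : 100 ≤ n) {j m : ℕ} (hj : Ce n j) (hm : Ce n m) (h2j : j % 2 = 0)
    (h1 : Ty B 0 j (n - j)) (h2 : Ty B (n - m) 0 m) : False := by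
  obtain ⟨hj1, hj2⟩ := hj
  obtain ⟨hm1, hm2⟩ := hm
  obtain ⟨c, g, hcg, hg⟩ : ∃ c g, j = 4 * c + 2 * g + 4 ∧ g ≤ 1 := ⟨(j - 4) / 4, (j - 4) % 4 / 2, by omega, by omega⟩
  obtain ⟨d, hd⟩ : ∃ d, n - m = d + g + 2 * c + 2 := ⟨n - m - (g + 2 * c + 2), by omega⟩
  obtain ⟨a, ha⟩ : ∃ a, m = 2 + 2 * c + 2 * g + a := ⟨m - (2 + 2 * c + 2 * g), by omega⟩
  have e1 : n - j = d + g + a := by omega
  rw [e1, hcg] at h1
  rw [hd, ha] at h2
  exact c5' hF hS h1 h2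

theorem ace (hF : FreeW B) (hS : SymW B) (hn : 100 ≤ n) {i j m : ℕ} (hi : Ce n i) (hj : Ce n j) (hm : Ce n m)
    (hp : (i + j) % 2 = n % 2) (h1 : Ty B (n - i) i 0) (h2 : Ty B 0 (n - j) j) (h3 : Ty B (n - m) 0 m) : False := by
  obtain ⟨hi1, hi2⟩ := hi
  obtain ⟨hj1, hj2⟩ := hj
  obtain ⟨hm1, hm2⟩ := hm
  obtain ⟨α, α', h4, h5⟩ : ∃ α α' : ℕ, n + 2 * α = i + j + 2 * α' ∧ (α = 0 ∨ α' = 0) := by
    rcases Nat.lt_or_ge n (i + j) with h | h
    · exact ⟨(i + j - n) / 2, 0, by omega, by omega⟩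
    · exact ⟨0, (n - (i + j)) / 2, by omega, by omega⟩
  obtain ⟨P, hP⟩ : ∃ P, j = P + 2 * α + 2 := ⟨j - (2 * α + 2), by omega⟩
  obtain ⟨Q, hQ⟩ : ∃ Q, i = Q + 2 * α + 2 := ⟨i - (2 * α + 2), by omega⟩
  obtain ⟨R, hR⟩ : ∃ R, m = R + α + α' + 2 := ⟨m - (α + α' + 2), by omega⟩
  obtain ⟨p, p', q, q', h6, h7, h8⟩ : ∃ p p' q q' : ℕ, p + p' = P ∧ q + q' = Q ∧ p' + q' = R := by
    rcases Nat.lt_or_ge R P with h | h
    · exact ⟨P - R, R, Q, 0, by omega, by omega, by omega⟩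
    · exact ⟨0, P, Q - (R - P), R - P, by omega, by omega, by omega⟩
  have e1 : n - i = p + p' + 2 * α' + 2 := by omega
  have e2 : i = q + q' + 2 * α + 2 := by omega
  have e3 : n - j = q + q' + 2 * α' + 2 := by omega
  have e4 : j = p + p' + 2 * α + 2 := by omega
  have e5 : n - m = p + q + α + α' + 2 := by omega
  have e6 : m = p' + q' + α + α' + 2 := by omega
  rw [e1, e2] at h1
  rw [e3, e4] at h2
  rw [e5, e6] at h3
  exact c6 hF hS h1 h2 h3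

end Pool.Agent.L5helper7.D3
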