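import Pool.Agent.L5helper7.D3.Cnt

/-!
# Base 3: the types of a symmetric progression-free set, all indices
-/

set_option autoImplicit false

namespace Pool.Agent.L5helper7.D3

open Finset Equiv
open Pool.Agent.L5helper7.DS (FreeW SymW)

variable {n : ℕ} {B : Finset (Fin n → Fin 3)}

/-- digits 0, 1; `i` ones -/
def PA (B : Finset (Fin n → Fin 3)) (i : ℕ) : Prop := Ty B (n - i) i 0

/-- digits 1, 2; `i` twos -/
def PC (B : Finset (Fin n → Fin 3)) (i : ℕ) : Prop := Ty B 0 (n - i) i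

/-- digits 0, 2; `i` twos -/
def PE (B : Finset (Fin n → Fin 3)) (i : ℕ) : Prop := Ty B (n - i) 0 i

/-! ### reflection -/

/-- the digits `d` replaced by `2 - d` -/
def rf (B : Finset (Fin n → Fin 3)) : Finset (Fin n → Fin 3) := B.image (fun u i => Fin.rev (u i))

theorem rf_free (hF : FreeW B) : FreeW (rf B) := by
  classical
  have hval : ∀ u : Fin n → Fin 3, DS.val (fun i => Fin.rev (u i)) + DS.val u = ∑ i : Fin n, 2 * 3 ^ (i : ℕ) := by
    intro u
    unfold DS.val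
    rw [← sum_add_distrib]
    refine sum_congr rfl fun i _ => ?_
    rw [← add_mul]
    congr 1
    rw [Fin.val_rev]
    omega
  intro u hu v hv w hw h
  unfold rf at hu hv hw
  rw [mem_image] at hu hv hw
  obtain ⟨u, hu, rfl⟩ := hu
  obtain ⟨v, hv, rfl⟩ := hv
  obtain ⟨w, hw, rfl⟩ := hw
  have h1 := hval u
  have h2 := hval v
  have h3 := hval w
  rw [hF u hu v hv w hw (by omega)]

theorem rf_sym (hS : SymW B) : SymW (rf B) := by
  classical
  intro σ u hu
  unfold rf at hu ⊢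
  rw [mem_image] at hu ⊢
  obtain ⟨u, hu, rfl⟩ := hu
  exact ⟨fun i => u (σ i), hS σ u hu, rfl⟩

theorem rf_ty (hS : SymW B) {i j k : ℕ} (h : Ty B k j i) : Ty (rf B) i j k := by
  classical
  obtain ⟨u, hu, hu2⟩ := h
  have h1 : Mem (rf B) ((ty k j i).map Fin.rev) := by
    refine ⟨fun t => Fin.rev (u t), mem_image_of_mem _ hu, ?_⟩
    rw [← hu2, List.map_ofFn]
    rfl
  refine mem_perm (rf_sym hS) (List.Perm.symm (perm_ty ?_ ?_ ?_)) h1 <;>
    simp [ty, List.count_replicate]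

theorem rf_rf (B : Finset (Fin n → Fin 3)) : rf (rf B) = B := by
  classical
  unfold rf
  rw [image_image]
  have : (fun (u : Fin n → Fin 3) i => Fin.rev (u i)) ∘ (fun (u : Fin n → Fin 3) i => Fin.rev (u i)) = id := by
    funext u i
    simp
  rw [this, image_id]

theorem rf_iff (hS : SymW B) {i j k : ℕ} : Ty (rf B) i j k ↔ Ty B k j i := by
  refine ⟨fun h => ?_, rf_ty hS⟩
  have := rf_ty (rf_sym hS) h
  rwa [rf_rf] at this

theorem rf_PA (hS : SymW B) {i j : ℕ} (h : i + j = n) : PA (rf B) i ↔ PC B j := by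
  unfold PA PC
  rw [rf_iff hS, show n - i = j by omega, show n - j = i by omega]

theorem rf_PC (hS : SymW B) {i j : ℕ} (h : i + j = n) : PC (rf B) i ↔ PA B j := by
  unfold PA PC
  rw [rf_iff hS, show n - i = j by omega, show n - j = i by omega]

theorem rf_PE (hS : SymW B) {i j : ℕ} (h : i + j = n) : PE (rf B) i ↔ PE B j := by
  unfold PE
  rw [rf_iff hS, show n - i = j by omega, show n - j = i by omega]

/-! ### conflicts -/

theorem c7 (hF : FreeW B) (hS : SymW B) {p q r : ℕ} (h1 : Ty B (q + r) 0 (p + 1)) (h2 : Ty B (p + 1 + r) 0 q)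
    (h3 : Ty B r (p + 1 + q) 0) : False := by
  have b1 : Blk 0 [2] [0] [1] 0 := ⟨rfl, rfl, by decide⟩
  have b2 : Blk 0 [0] [2] [1] 0 := ⟨rfl, rfl, by decide⟩
  have b3 : Blk 0 [0] [0] [0] 0 := ⟨rfl, rfl, by decide⟩
  have k := b1.app ((b1.rep p).app ((b2.rep q).app (b3.rep r)))
  have e := conflict hF k
    (h1.mem hS (by simp [rep_count]; try ring) (by simp [rep_count]) (by simp [rep_count]; try ring))
    (h2.mem hS (by simp [rep_count]; try ring) (by simp [rep_count]) (by simp [rep_count]; try ring))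
    (h3.mem hS (by simp [rep_count]; try ring) (by simp [rep_count]; try ring) (by simp [rep_count]))
  simp at e

theorem c8 (hF : FreeW B) (hS : SymW B) {p q r : ℕ} (h1 : Ty B q 0 (p + 1 + r)) (h2 : Ty B (p + 1) 0 (q + r))
    (h3 : Ty B 0 (p + 1 + q) r) : False := by
  have b1 : Blk 0 [2] [0] [1] 0 := ⟨rfl, rfl, by decide⟩
  have b2 : Blk 0 [0] [2] [1] 0 := ⟨rfl, rfl, by decide⟩
  have b3 : Blk 0 [2] [2] [2] 0 := ⟨rfl, rfl, by decide⟩
  have k := b1.app ((b1.rep p).app ((b2.rep q).app (b3.rep r)))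
  have e := conflict hF k
    (h1.mem hS (by simp [rep_count]; try ring) (by simp [rep_count]) (by simp [rep_count]; try ring))
    (h2.mem hS (by simp [rep_count]; try ring) (by simp [rep_count]) (by simp [rep_count]; try ring))
    (h3.mem hS (by simp [rep_count]) (by simp [rep_count]; try ring) (by simp [rep_count]; try ring))
  simp at e

theorem c9 (hF : FreeW B) (hS : SymW B) {m r : ℕ} (h1 : Ty B (r + 2) m 0) (h2 : Ty B r (m + 2) 0)
    (h3 : Ty B (r + 1) 0 (m + 1)) : False := by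
  have b1 : Blk 0 [0] [1] [2] (-1) := ⟨rfl, rfl, by decide⟩
  have b2 : Blk (-1) [1] [1] [2] (-1) := ⟨rfl, rfl, by decide⟩
  have b3 : Blk (-1) [0] [1] [0] 0 := ⟨rfl, rfl, by decide⟩
  have b4 : Blk 0 [0] [0] [0] 0 := ⟨rfl, rfl, by decide⟩
  have k := b1.app ((b2.rep m).app (b3.app (b4.rep r)))
  have e := conflict hF k
    (h1.mem hS (by simp [rep_count]; try ring) (by simp [rep_count]; try ring) (by simp [rep_count]))
    (h2.mem hS (by simp [rep_count]; try ring) (by simp [rep_count]; try ring) (by simp [rep_count]))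
    (h3.mem hS (by simp [rep_count]; try ring) (by simp [rep_count]) (by simp [rep_count]; try ring))
  simp at e

theorem c10 (hF : FreeW B) (hS : SymW B) {m d : ℕ} (h1 : Ty B (m + 1 + d) (2 * (m + 1)) 0)
    (h2 : Ty B (m + 1) 0 (2 * (m + 1) + d)) : False := by
  have b1 : Blk 0 [1] [2] [0] 1 := ⟨rfl, rfl, by decide⟩
  have b2 : Blk 1 [0] [2] [0] 1 := ⟨rfl, rfl, by decide⟩
  have b3 : Blk 1 [1] [0] [1] 0 := ⟨rfl, rfl, by decide⟩
  have b4 : Blk 0 [1, 1] [2, 0] [0, 1] 0 := ⟨rfl, rfl, by decide⟩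
  have b5 : Blk 0 [0] [2] [1] 0 := ⟨rfl, rfl, by decide⟩
  have k := b1.app ((b2.rep d).app (b3.app ((b4.rep m).app (b5.rep (m + 1)))))
  have e := conflict hF k
    (h1.mem hS (by simp [rep_count]; try ring) (by simp [rep_count]; try ring) (by simp [rep_count]))
    (h2.mem hS (by simp [rep_count]; try ring) (by simp [rep_count]) (by simp [rep_count]; try ring))
    (h1.mem hS (by simp [rep_count]; try ring) (by simp [rep_count]; try ring) (by simp [rep_count]))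
  simp at e

theorem lae (hF : FreeW B) (hS : SymW B) {i : ℕ} (h1 : 1 ≤ i) (h2 : i + 1 ≤ n) (ha : PA B i) (he : PE B i) : False := by
  unfold PA at ha
  unfold PE at he
  obtain ⟨s, hs⟩ : ∃ s, n - i = s + 1 := ⟨n - i - 1, by omega⟩
  obtain ⟨r, rfl⟩ : ∃ r, i = r + 1 := ⟨i - 1, by omega⟩
  rw [hs] at ha he
  exact c2 hF hS ha he

theorem lce (hF : FreeW B) (hS : SymW B) {i : ℕ} (h1 : 1 ≤ i) (h2 : i + 1 ≤ n) (hc : PC B i) (he : PE B i) : False := by
  unfold PC at hc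
  unfold PE at he
  obtain ⟨s, hs⟩ : ∃ s, n - i = s + 1 := ⟨n - i - 1, by omega⟩
  obtain ⟨r, rfl⟩ : ∃ r, i = r + 1 := ⟨i - 1, by omega⟩
  rw [hs] at hc he
  exact c2' hF hS hc he

theorem lac (hF : FreeW B) (hS : SymW B) {i j : ℕ} (h1 : 1 ≤ i) (h2 : 1 ≤ j) (h : i + j = n) (ha : PA B i)
    (hc : PC B j) : False := by
  unfold PA at ha
  unfold PC at hc
  obtain ⟨s, rfl⟩ : ∃ s, j = s + 1 := ⟨j - 1, by omega⟩
  obtain ⟨r, rfl⟩ : ∃ r, i = r + 1 := ⟨i - 1, by omega⟩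
  rw [show n - (r + 1) = s + 1 by omega] at ha
  rw [show n - (s + 1) = r + 1 by omega] at hc
  exact c3 hF hS ha hc

theorem lae2 (hF : FreeW B) (hS : SymW B) {j m : ℕ} (h4 : 4 ≤ j) (h2j : j % 2 = 0) (hjm : j ≤ 2 * m)
    (hmn : 2 * m + j + 2 ≤ 2 * n) (ha : PA B j) (he : PE B m) : False := by
  unfold PA at ha
  unfold PE at he
  obtain ⟨c, g, hcg, hg⟩ : ∃ c g, j = 4 * c + 2 * g + 4 ∧ g ≤ 1 := ⟨(j - 4) / 4, (j - 4) % 4 / 2, by omega, by omega⟩
  obtain ⟨d, hd⟩ : ∃ d, m = d + g + 2 * c + 2 := ⟨m - (g + 2 * c + 2), by omega⟩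
  obtain ⟨a, h5⟩ : ∃ a, n - m = 2 + 2 * c + 2 * g + a := ⟨n - m - (2 + 2 * c + 2 * g), by omega⟩
  have e1 : n - j = d + g + a := by omega
  rw [e1, hcg] at ha
  rw [h5, hd] at he
  exact c5 hF hS ha he

theorem lce2 (hF : FreeW B) (hS : SymW B) {j k m : ℕ} (hjk : j + k = n) (h4 : 4 ≤ j) (h2j : j % 2 = 0)
    (hjm : j + 2 * m ≤ 2 * n) (hmn : j + 2 ≤ 2 * m) (hc : PC B k) (he : PE B m) : False := by
  have hm : m ≤ n := by omega
  refine lae2 (rf_free hF) (rf_sym hS) (j := j) (m := n - m) h4 h2j (by omega) (by omega)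
    ((rf_PA hS hjk).2 hc) ((rf_PE hS (by omega)).2 he)

theorem lace (hF : FreeW B) (hS : SymW B) {i j m α α' : ℕ} (hm : m ≤ n) (hin : i ≤ n) (hjn : j ≤ n)
    (h : n + 2 * α = i + j + 2 * α') (h1 : 2 * α + 2 ≤ i)
    (h2 : 2 * α + 2 ≤ j) (h3 : α + α' + 2 ≤ m) (h4 : m + 3 * α + 2 ≤ i + j + α') (ha : PA B i) (hc : PC B j)
    (he : PE B m) : False := by
  unfold PA at ha
  unfold PC at hc
  unfold PE at he
  obtain ⟨P, hP⟩ : ∃ P, j = P + 2 * α + 2 := ⟨j - (2 * α + 2), by omega⟩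
  obtain ⟨Q, hQ⟩ : ∃ Q, i = Q + 2 * α + 2 := ⟨i - (2 * α + 2), by omega⟩
  obtain ⟨R, hR⟩ : ∃ R, m = R + α + α' + 2 := ⟨m - (α + α' + 2), by omega⟩
  obtain ⟨p, p', q, q', h6, h7, h8⟩ : ∃ p p' q q' : ℕ, p + p' = P ∧ q + q' = Q ∧ p' + q' = R := by
    rcases Nat.lt_or_ge R P with h | h
    · exact ⟨P - R, R, Q, 0, by omega, by omega, by omega⟩
    · exact ⟨0, P, Q - (R - P), R - P, by omega, by omega, by omega⟩
  have e1 : n - i = p + p' + 2 * α' + 2 := by omega
  have e2 : i = q + q' + 2 * α + 2 := by omega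
  have e3 : n - j = q + q' + 2 * α' + 2 := by omega
  have e4 : j = p + p' + 2 * α + 2 := by omega
  have e5 : n - m = p + q + α + α' + 2 := by omega
  have e6 : m = p' + q' + α + α' + 2 := by omega
  rw [e1, e2] at ha
  rw [e3, e4] at hc
  rw [e5, e6] at he
  exact c6 hF hS ha hc he

theorem leea (hF : FreeW B) (hS : SymW B) {m m' : ℕ} (h1 : 1 ≤ m) (h : m + m' ≤ n) (he : PE B m) (he' : PE B m')
    (ha : PA B (m + m')) : False := by
  unfold PA at ha
  unfold PE at he he'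
  obtain ⟨p, rfl⟩ : ∃ p, m = p + 1 := ⟨m - 1, by omega⟩
  obtain ⟨r, hr⟩ : ∃ r, n = p + 1 + m' + r := ⟨n - (p + 1 + m'), by omega⟩
  rw [show n - (p + 1) = m' + r by omega] at he
  rw [show n - m' = p + 1 + r by omega] at he'
  rw [show n - (p + 1 + m') = r by omega] at ha
  exact c7 hF hS he he' ha

theorem leec (hF : FreeW B) (hS : SymW B) {m m' k : ℕ} (h1 : m' + 1 ≤ n) (h0 : m ≤ n) (h : m + m' = n + k) (he : PE B m)
    (he' : PE B m') (hc : PC B k) : False := by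
  unfold PC at hc
  unfold PE at he he'
  obtain ⟨p, hp⟩ : ∃ p, n = m' + p + 1 := ⟨n - m' - 1, by omega⟩
  obtain ⟨q, hq⟩ : ∃ q, n = m + q := ⟨n - m, by omega⟩
  rw [show n - m = q by omega, show m = p + 1 + k by omega] at he
  rw [show n - m' = p + 1 by omega, show m' = q + k by omega] at he'
  rw [show n - k = p + 1 + q by omega] at hc
  exact c8 hF hS he he' hc

theorem laae (hF : FreeW B) (hS : SymW B) {m : ℕ} (h : m + 2 ≤ n) (ha : PA B m) (ha' : PA B (m + 2))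
    (he : PE B (m + 1)) : False := by
  unfold PA at ha ha'
  unfold PE at he
  obtain ⟨r, hr⟩ : ∃ r, n = m + 2 + r := ⟨n - (m + 2), by omega⟩
  rw [show n - m = r + 2 by omega] at ha
  rw [show n - (m + 2) = r by omega] at ha'
  rw [show n - (m + 1) = r + 1 by omega] at he
  exact c9 hF hS ha ha' he

theorem lae10 (hF : FreeW B) (hS : SymW B) {m m' : ℕ} (h1 : 1 ≤ m) (h : 3 * m ≤ n) (hm : m + m' = n) (ha : PA B (2 * m))
    (he : PE B m') : False := by
  unfold PA at ha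
  unfold PE at he
  obtain ⟨p, rfl⟩ : ∃ p, m = p + 1 := ⟨m - 1, by omega⟩
  obtain ⟨d, hd⟩ : ∃ d, n = 3 * (p + 1) + d := ⟨n - 3 * (p + 1), by omega⟩
  rw [show n - 2 * (p + 1) = p + 1 + d by omega] at ha
  rw [show n - m' = p + 1 by omega, show m' = 2 * (p + 1) + d by omega] at he
  exact c10 hF hS ha he

theorem lce10 (hF : FreeW B) (hS : SymW B) {m k : ℕ} (h1 : 1 ≤ m) (h : 3 * m ≤ n) (hk : 2 * m + k = n) (hc : PC B k)
    (he : PE B m) : False :=
  lae10 (rf_free hF) (rf_sym hS) (m := m) (m' := n - m) h1 h (by omega) ((rf_PA hS hk).2 hc)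
    ((rf_PE hS (by omega)).2 he)

end Pool.Agent.L5helper7.D3
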