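import Pool.Agent.L5helper7.D3.More

/-!
# Base 3: levels with too many types are compensated
-/

set_option autoImplicit false

namespace Pool.Agent.L5helper7.D3

open Finset Equiv
open Pool.Agent.L5helper7.DS (FreeW SymW)

variable {n : ℕ} {B : Finset (Fin n → Fin 3)}

open Classical in
/-- the number of the types with index `j` in `B` -/
noncomputable def ff (B : Finset (Fin n → Fin 3)) (j : ℕ) : ℕ :=
  (if PA B j then 1 else 0) + (if PC B j then 1 else 0) + (if PE B j then 1 else 0)

/-- three of the six types of the indices `K` and `n - K` -/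
def Bad (B : Finset (Fin n → Fin 3)) (K : ℕ) : Prop :=
  (PA B K ∧ PC B K ∧ PE B (n - K)) ∨ (PA B (n - K) ∧ PC B (n - K) ∧ PE B K)

theorem rels (hF : FreeW B) (hS : SymW B) {j : ℕ} (h1 : 1 ≤ j) (h2 : j + 1 ≤ n) :
    (PA B j → PE B j → False) ∧ (PC B j → PE B j → False) ∧ (PA B (n - j) → PE B (n - j) → False) ∧
    (PC B (n - j) → PE B (n - j) → False) ∧ (PA B j → PC B (n - j) → False) ∧ (PA B (n - j) → PC B j → False) :=
  ⟨lae hF hS h1 h2, lce hF hS h1 h2, lae hF hS (by omega) (by omega), lce hF hS (by omega) (by omega),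
    lac hF hS h1 (by omega) (by omega), lac hF hS (by omega) h1 (by omega)⟩

theorem ff_bad (hF : FreeW B) (hS : SymW B) {j : ℕ} (h1 : 1 ≤ j) (h2 : j + 1 ≤ n)
    (h : 3 ≤ ff B j + ff B (n - j)) : Bad B j := by
  obtain ⟨r1, r2, r3, r4, r5, r6⟩ := rels hF hS h1 h2
  unfold ff at h
  unfold Bad
  split_ifs at h <;> first | omega | tauto

theorem ff_le (hF : FreeW B) (hS : SymW B) {j : ℕ} (h1 : 1 ≤ j) (h2 : j + 1 ≤ n) : ff B j + ff B (n - j) ≤ 3 := by
  obtain ⟨r1, r2, r3, r4, r5, r6⟩ := rels hF hS h1 h2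
  unfold ff
  split_ifs <;> first | omega | (exfalso; tauto)

theorem ff_mid (hF : FreeW B) (hS : SymW B) {j : ℕ} (h1 : 1 ≤ j) (h2 : 2 * j = n) : ff B j ≤ 1 := by
  obtain ⟨r1, r2, r3, r4, r5, r6⟩ := rels hF hS h1 (show j + 1 ≤ n by omega)
  rw [show n - j = j by omega] at r5
  unfold ff
  split_ifs <;> first | omega | (exfalso; tauto)

theorem ff_d (hF : FreeW B) (hS : SymW B) {j : ℕ} (h1 : 1 ≤ j) (h2 : j + 1 ≤ n) (h : ff B j + ff B (n - j) = 2)
    (hA : ¬ PA B j) (hC : ¬ PC B (n - j)) : PE B j ∨ PE B (n - j) := by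
  obtain ⟨r1, r2, r3, r4, r5, r6⟩ := rels hF hS h1 h2
  unfold ff at h
  split_ifs at h <;> first | omega | tauto

theorem ff_x (hF : FreeW B) (hS : SymW B) {j : ℕ} (h1 : 1 ≤ j) (h2 : j + 1 ≤ n) (h : ff B j + ff B (n - j) = 2)
    (hA : ¬ PC B j) (hC : ¬ PC B (n - j)) : (PA B j ∨ PE B j) ∧ (PA B (n - j) ∨ PE B (n - j)) := by
  obtain ⟨r1, r2, r3, r4, r5, r6⟩ := rels hF hS h1 h2
  unfold ff at h
  split_ifs at h <;> first | omega | tauto

theorem ff_y (hF : FreeW B) (hS : SymW B) {j : ℕ} (h1 : 1 ≤ j) (h2 : j + 1 ≤ n) (h : ff B j + ff B (n - j) = 2)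
    (hA : ¬ PA B j) (hC : ¬ PA B (n - j)) : (PC B j ∨ PE B j) ∧ (PC B (n - j) ∨ PE B (n - j)) := by
  obtain ⟨r1, r2, r3, r4, r5, r6⟩ := rels hF hS h1 h2
  unfold ff at h
  split_ifs at h <;> first | omega | tauto

theorem bad_rf (hS : SymW B) {K : ℕ} (hK : K ≤ n) (h : Bad B K) : Bad (rf B) K := by
  unfold Bad at h ⊢
  rw [rf_PA hS (show K + (n - K) = n by omega), rf_PC hS (show K + (n - K) = n by omega),
    rf_PE hS (show (n - K) + K = n by omega), rf_PA hS (show (n - K) + K = n by omega),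
    rf_PC hS (show (n - K) + K = n by omega), rf_PE hS (show K + (n - K) = n by omega)]
  tauto

theorem lvl2 (hF : FreeW B) (hS : SymW B) (hn : 200 ≤ n) {K : ℕ} (hK2 : 2 * K < n)
    (ha : PA B (n - K)) (hc : PC B (n - K)) (he : PE B K) : 3 * K + 2 ≤ n := by
  by_contra hcon
  by_cases h1 : (n - K) % 2 = 0
  · exact lae2 hF hS (j := n - K) (m := K) (by omega) h1 (by omega) (by omega) ha he
  · by_cases h2 : K % 2 = 0
    · exact lce2 hF hS (j := K) (k := n - K) (m := K) (by omega) (by omega) h2 (by omega) (by omega) hc he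
    · exact lace hF hS (i := n - K) (j := n - K) (m := K) (α := (n - 2 * K) / 2) (α' := 0) (by omega) (by omega)
        (by omega) (by omega) (by omega) (by omega) (by omega) (by omega) ha hc he

theorem lvl (hF : FreeW B) (hS : SymW B) (hn : 200 ≤ n) {K : ℕ} (hK2 : 2 * K < n) (h : Bad B K) : 3 * K + 2 ≤ n := by
  rcases h with ⟨ha, hc, he⟩ | ⟨ha, hc, he⟩
  · exact lvl2 (rf_free hF) (rf_sym hS) hn hK2 ((rf_PA hS (by omega)).2 hc) ((rf_PC hS (by omega)).2 ha)
      ((rf_PE hS (by omega)).2 he)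
  · exact lvl2 hF hS hn hK2 ha hc he

theorem caseX (hF : FreeW B) (hS : SymW B) (hn : 200 ≤ n) {K : ℕ} (hK : 1 ≤ K) (h3K : 3 * K + 2 ≤ n) {m0 : ℕ}
    (hm0 : Ce n m0) (he0 : PE B m0) (hae : ∀ j, Ce n j → 2 * j ≠ n → PA B j ∨ PE B j) (hbad : Bad B K) : False := by
  have heven : ∀ j, Ce n j → 2 * j ≠ n → j % 2 = 0 → PE B j := fun j hj h1 h2 =>
    (hae j hj h1).resolve_left fun h3 => ae2 hF hS (by omega) hj hm0 h2 h3 he0
  by_cases h6 : 6 ≤ K
  · obtain ⟨m2, hm2, h2a, h2b⟩ : ∃ m2, m2 % 2 = 0 ∧ 2 * m2 < n ∧ n ≤ 2 * m2 + 4 := ⟨2 * ((n - 1) / 4), by omega, by omega, by omega⟩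
    have he2 : PE B m2 := heven m2 ⟨by omega, by omega⟩ (by omega) hm2
    rcases hbad with ⟨ha, hc, he⟩ | ⟨ha, hc, he⟩
    · by_cases h1 : (n - K) % 2 = 0
      · exact lce2 hF hS (j := n - K) (k := K) (m := m2) (by omega) (by omega) h1 (by omega) (by omega) hc he2
      · by_cases h2 : K % 2 = 0
        · exact lae2 hF hS (j := K) (m := m2) (by omega) h2 (by omega) (by omega) ha he2
        · exact lace hF hS (i := K) (j := K) (m := m2) (α := 0) (α' := (n - 2 * K) / 2) (by omega) (by omega)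
            (by omega) (by omega) (by omega) (by omega) (by omega) (by omega) ha hc he2
    · by_cases h1 : (n - K) % 2 = 0
      · exact lae2 hF hS (j := n - K) (m := m2) (by omega) h1 (by omega) (by omega) ha he2
      · by_cases h2 : K % 2 = 0
        · exact lce2 hF hS (j := K) (k := n - K) (m := m2) (by omega) (by omega) h2 (by omega) (by omega) hc he2
        · exact lace hF hS (i := n - K) (j := n - K) (m := m2) (α := (n - 2 * K) / 2) (α' := 0) (by omega) (by omega)
            (by omega) (by omega) (by omega) (by omega) (by omega) (by omega) ha hc he2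
  · obtain ⟨m1, hm1, h1a, h1b⟩ : ∃ m1, m1 % 2 = 0 ∧ 2 * m1 + 20 ≤ n ∧ n ≤ 2 * m1 + 23 :=
      ⟨2 * (n / 4) - 10, by omega, by omega, by omega⟩
    have he1 : PE B m1 := heven m1 ⟨by omega, by omega⟩ (by omega) hm1
    obtain ⟨m', hm', h2a, h2b, he'⟩ : ∃ m', m' % 2 = 1 ∧ 2 * m' + 18 ≤ n ∧ n ≤ 2 * m' + 25 ∧ PE B m' := by
      obtain ⟨p, hp⟩ : ∃ p, m1 = p + 1 := ⟨m1 - 1, by omega⟩
      rcases hae p ⟨by omega, by omega⟩ (by omega) with h | h
      · rcases hae (p + 2) ⟨by omega, by omega⟩ (by omega) with h' | h'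
        · exfalso
          rw [hp] at he1
          exact laae hF hS (by omega) h h' he1
        · exact ⟨p + 2, by omega, by omega, by omega, h'⟩
      · exact ⟨p, by omega, by omega, by omega, h⟩
    rcases hbad with ⟨ha, hc, he⟩ | ⟨ha, hc, he⟩
    · by_cases h1 : (n + K) % 2 = 0
      · have h3 : PE B (n + K - m1) := heven _ ⟨by omega, by omega⟩ (by omega) (by omega)
        exact leec hF hS (m := m1) (m' := n + K - m1) (k := K) (by omega) (by omega) (by omega) he1 h3 hc
      · have h3 : PE B (n + K - m') := heven _ ⟨by omega, by omega⟩ (by omega) (by omega)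
        exact leec hF hS (m := m') (m' := n + K - m') (k := K) (by omega) (by omega) (by omega) he' h3 hc
    · by_cases h1 : (n + K) % 2 = 0
      · have h3 : PE B (n - K - m1) := heven _ ⟨by omega, by omega⟩ (by omega) (by omega)
        refine leea hF hS (m := m1) (m' := n - K - m1) (by omega) (by omega) he1 h3 ?_
        rwa [show m1 + (n - K - m1) = n - K by omega]
      · have h3 : PE B (n - K - m') := heven _ ⟨by omega, by omega⟩ (by omega) (by omega)
        refine leea hF hS (m := m') (m' := n - K - m') (by omega) (by omega) he' h3 ?_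
        rwa [show m' + (n - K - m') = n - K by omega]

theorem star (hF : FreeW B) (hS : SymW B) (hn : 200 ≤ n) {K : ℕ} (hK : 1 ≤ K) (h3K : 3 * K + 2 ≤ n) (hbad : Bad B K)
    (hsix : ∀ j, K < j → 2 * j < n → ff B j + ff B (n - j) = 2) : False := by
  classical
  have hDK : PE B K ∨ PE B (n - K) := by
    rcases hbad with ⟨_, _, h⟩ | ⟨_, _, h⟩
    · exact Or.inr h
    · exact Or.inl h
  obtain ⟨m, hKm, h2m, hDm, hmax⟩ : ∃ m, K ≤ m ∧ 2 * m < n ∧ (PE B m ∨ PE B (n - m)) ∧
      ∀ j, m < j → 2 * j < n → ¬ (PE B j ∨ PE B (n - j)) := by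
    let P : ℕ → Prop := fun m => K ≤ m ∧ 2 * m < n ∧ (PE B m ∨ PE B (n - m))
    have hPK : P K := ⟨le_rfl, by omega, hDK⟩
    have h1 := Nat.findGreatest_spec (P := P) (m := K) (n := n) (by omega) hPK
    refine ⟨Nat.findGreatest P n, h1.1, h1.2.1, h1.2.2, fun j hj h2j hD => ?_⟩
    have h2 : P j := ⟨by have := h1.1; omega, h2j, hD⟩
    have h3 := Nat.le_findGreatest (P := P) (m := j) (n := n) (by omega) h2
    omega
  have h4m : n ≤ 4 * m := by
    by_contra hcon
    refine hmax (2 * m) (by omega) (by omega) ?_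
    refine ff_d hF hS (by omega) (by omega) (hsix _ (by omega) (by omega)) (fun hA => ?_) (fun hC => ?_)
    · rcases hDm with he | he
      · exact leea hF hS (m := m) (m' := m) (by omega) (by omega) he he (by rwa [← two_mul])
      · exact lae10 hF hS (m := m) (m' := n - m) (by omega) (by omega) (by omega) hA he
    · rcases hDm with he | he
      · exact lce10 hF hS (m := m) (k := n - 2 * m) (by omega) (by omega) (by omega) hC he
      · exact leec hF hS (m := n - m) (m' := n - m) (k := n - 2 * m) (by omega) (by omega) (by omega) he he hC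
  have h5m : n ≤ 2 * m + 4 := by
    by_contra hcon
    obtain ⟨j, hj1, hj2, hj3⟩ : ∃ j, j % 2 = 0 ∧ m < j ∧ j ≤ m + 2 := by
      rcases Nat.mod_two_eq_zero_or_one m with h | h
      · exact ⟨m + 2, by omega, by omega, by omega⟩
      · exact ⟨m + 1, by omega, by omega, by omega⟩
    refine hmax j hj2 (by omega) ?_
    refine ff_d hF hS (by omega) (by omega) (hsix _ (by omega) (by omega)) (fun hA => ?_) (fun hC => ?_)
    · rcases hDm with he | he
      · exact lae2 hF hS (j := j) (m := m) (by omega) hj1 (by omega) (by omega) hA he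
      · exact lae2 hF hS (j := j) (m := n - m) (by omega) hj1 (by omega) (by omega) hA he
    · rcases hDm with he | he
      · exact lce2 hF hS (j := j) (k := n - j) (m := m) (by omega) (by omega) hj1 (by omega) (by omega) hC he
      · exact lce2 hF hS (j := j) (k := n - j) (m := n - m) (by omega) (by omega) hj1 (by omega) (by omega) hC he
  obtain ⟨m0, hm0, he0⟩ : ∃ m0, Ce n m0 ∧ PE B m0 := by
    rcases hDm with he | he
    · exact ⟨m, ⟨by omega, by omega⟩, he⟩
    · exact ⟨n - m, ⟨by omega, by omega⟩, he⟩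
  by_cases hX : ∃ k, Ce n k ∧ PC B k
  · obtain ⟨k, hk, hck⟩ := hX
    have hY : ∀ i, Ce n i → ¬ PA B i := by
      intro i hi hai
      have hi2 : i % 2 = 1 := by
        by_contra h
        exact ae2 hF hS (by omega) hi hm0 (by omega) hai he0
      have hk1 := hk.1
      have hk2 := hk.2
      have h1 : (n - k) % 2 = 1 := by
        by_contra h
        refine ce2 hF hS (by omega) (j := n - k) (m := m0) ⟨by omega, by omega⟩ hm0 (by omega) ?_ he0
        unfold PC at hck
        rwa [show n - (n - k) = k by omega]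
      exact ace hF hS (by omega) hi hk hm0 (by omega) hai hck he0
    have hce : ∀ j, Ce n j → 2 * j ≠ n → PC B j ∨ PE B j := by
      intro j hj h2j
      have hj1 := hj.1
      have hj2 := hj.2
      rcases Nat.lt_or_ge (2 * j) n with h | h
      · exact (ff_y hF hS (by omega) (by omega) (hsix j (by omega) h) (hY j hj) (hY (n - j) ⟨by omega, by omega⟩)).1
      · have h3 := (ff_y hF hS (j := n - j) (by omega) (by omega) (hsix (n - j) (by omega) (by omega))
          (hY (n - j) ⟨by omega, by omega⟩) (by rw [show n - (n - j) = j by omega]; exact hY j hj)).2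
        rwa [show n - (n - j) = j by omega] at h3
    have hm01 := hm0.1
    have hm02 := hm0.2
    refine caseX (rf_free hF) (rf_sym hS) hn hK h3K (m0 := n - m0) ⟨by omega, by omega⟩ ((rf_PE hS (by omega)).2 he0)
      (fun j hj h2j => ?_) (bad_rf hS (by omega) hbad)
    have hj1 := hj.1
    have hj2 := hj.2
    rw [rf_PA hS (show j + (n - j) = n by omega), rf_PE hS (show j + (n - j) = n by omega)]
    exact hce (n - j) ⟨by omega, by omega⟩ (by omega)
  · have hY : ∀ i, Ce n i → ¬ PC B i := fun i hi h => hX ⟨i, hi, h⟩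
    refine caseX hF hS hn hK h3K hm0 he0 (fun j hj h2j => ?_) hbad
    have hj1 := hj.1
    have hj2 := hj.2
    rcases Nat.lt_or_ge (2 * j) n with h | h
    · exact (ff_x hF hS (by omega) (by omega) (hsix j (by omega) h) (hY j hj) (hY (n - j) ⟨by omega, by omega⟩)).1
    · have h3 := (ff_x hF hS (j := n - j) (by omega) (by omega) (hsix (n - j) (by omega) (by omega))
        (hY (n - j) ⟨by omega, by omega⟩) (by rw [show n - (n - j) = j by omega]; exact hY j hj)).2
      rwa [show n - (n - j) = j by omega] at h3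

end Pool.Agent.L5helper7.D3
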