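import Pool.Agent.L5helper7.D3.Star

/-!
# Base 3: the summation over the levels
-/

set_option autoImplicit false

namespace Pool.Agent.L5helper7.D3

open Finset Equiv
open Pool.Agent.L5helper7.DS (FreeW SymW)

theorem reidx (n : ℕ) (f : ℕ → ℕ) : ∑ j ∈ Icc 1 (n - 1), n.choose j * f (n - j) = ∑ j ∈ Icc 1 (n - 1), n.choose j * f j := by
  refine sum_nbij' (fun j => n - j) (fun j => n - j) ?_ ?_ ?_ ?_ ?_
  · intro j hj
    rw [mem_Icc] at hj ⊢
    omega
  · intro j hj
    rw [mem_Icc] at hj ⊢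
    omega
  · intro j hj
    rw [mem_Icc] at hj
    show n - (n - j) = j
    omega
  · intro j hj
    rw [mem_Icc] at hj
    show n - (n - j) = j
    omega
  · intro j hj
    rw [mem_Icc] at hj
    show n.choose j * f (n - j) = n.choose (n - j) * f (n - j)
    rw [Nat.choose_symm (by omega)]

theorem tot (n : ℕ) (hn : 2 ≤ n) : 2 + ∑ j ∈ Icc 1 (n - 1), n.choose j = 2 ^ n := by
  have h1 := Nat.sum_range_choose n
  rw [sum_range_succ, Nat.choose_self, range_eq_Ico, sum_eq_sum_Ico_succ_bot (by omega), Nat.choose_zero_right] at h1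
  have h2 : Ico (0 + 1) n = Icc 1 (n - 1) := by
    ext j
    rw [mem_Ico, mem_Icc]
    omega
  rw [h2] at h1
  omega

theorem sum_two (n : ℕ) (hn : 2 ≤ n) (f : ℕ → ℕ) (hf : ∀ j, 1 ≤ j → j ≤ n - 1 → f j + f (n - j) ≤ 2) :
    2 + ∑ j ∈ Icc 1 (n - 1), n.choose j * f j ≤ 2 ^ n := by
  have h1 := reidx n f
  have h2 := tot n hn
  have h3 : ∑ j ∈ Icc 1 (n - 1), n.choose j * f j + ∑ j ∈ Icc 1 (n - 1), n.choose j * f (n - j) ≤
      2 * ∑ j ∈ Icc 1 (n - 1), n.choose j := by
    rw [← sum_add_distrib, mul_sum]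
    refine sum_le_sum fun j hj => ?_
    rw [mem_Icc] at hj
    have := hf j hj.1 hj.2
    nlinarith [Nat.zero_le (n.choose j)]
  omega

theorem choose_two (n k : ℕ) (h : 3 * k + 2 ≤ n) : 2 * n.choose k ≤ n.choose (k + 1) := by
  have h1 := Nat.choose_succ_right_eq n k
  have h2 : 2 * (k + 1) ≤ n - k := by omega
  have h3 : (2 * n.choose k) * (k + 1) ≤ n.choose (k + 1) * (k + 1) := by
    rw [h1]
    nlinarith [Nat.zero_le (n.choose k)]
  exact Nat.le_of_mul_le_mul_right h3 (by omega)

theorem geo (n : ℕ) : ∀ K : ℕ, 3 * K + 2 ≤ n → ∑ k ∈ Icc 1 K, n.choose k ≤ n.choose (K + 1) := by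
  intro K
  induction K with
  | zero => intro _; simp
  | succ K ih =>
    intro h
    rw [sum_Icc_succ_top (by omega)]
    have h1 := ih (by omega)
    have h2 := choose_two n (K + 1) h
    omega

theorem choose_up (n k : ℕ) : ∀ i : ℕ, k ≤ i → 2 * i < n → n.choose k ≤ n.choose i := by
  intro i hki
  induction i, hki using Nat.le_induction with
  | base => intro _; exact le_rfl
  | succ i hki ih =>
    intro h
    exact (ih (by omega)).trans (Nat.choose_le_succ_of_lt_half_left (by omega))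

theorem sum_three (n : ℕ) (f : ℕ → ℕ) (K i : ℕ) (hK : 3 * K + 2 ≤ n) (hKi : K < i) (hi : 2 * i < n)
    (hf3 : ∀ j, 1 ≤ j → j ≤ n - 1 → f j + f (n - j) ≤ 3)
    (hf2 : ∀ j, K < j → j < n - K → f j + f (n - j) ≤ 2) (hfi : f i + f (n - i) ≤ 1) :
    2 + ∑ j ∈ Icc 1 (n - 1), n.choose j * f j ≤ 2 ^ n := by
  have h1 := reidx n f
  have h2 := tot n (by omega)
  have h3 : ∑ j ∈ Icc 1 (n - 1), (n.choose j * f j + n.choose j * f (n - j) + (if j = i then n.choose j else 0) +
      (if j = n - i then n.choose j else 0)) ≤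
      ∑ j ∈ Icc 1 (n - 1), (2 * n.choose j + (if j ≤ K then n.choose j else 0) + (if n - K ≤ j then n.choose j else 0)) := by
    refine sum_le_sum fun j hj => ?_
    rw [mem_Icc] at hj
    have g3 := hf3 j hj.1 hj.2
    have hc := Nat.zero_le (n.choose j)
    have e : n.choose j * f j + n.choose j * f (n - j) = n.choose j * (f j + f (n - j)) := by ring
    rw [e]
    by_cases hjK : j ≤ K ∨ n - K ≤ j
    · have h4 : n.choose j * (f j + f (n - j)) ≤ n.choose j * 3 := Nat.mul_le_mul_left _ g3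
      rw [if_neg (by omega : ¬ j = i), if_neg (by omega : ¬ j = n - i)]
      rcases hjK with h | h
      · rw [if_pos h]
        split_ifs <;> omega
      · rw [if_pos h]
        split_ifs <;> omega
    · rw [if_neg (fun h => hjK (Or.inl h)), if_neg (fun h => hjK (Or.inr h))]
      by_cases hji : j = i
      · rw [if_pos hji, if_neg (by omega : ¬ j = n - i), hji]
        have h4 : n.choose i * (f i + f (n - i)) ≤ n.choose i * 1 := Nat.mul_le_mul_left _ hfi
        omega
      · rw [if_neg hji]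
        by_cases hji2 : j = n - i
        · rw [if_pos hji2]
          have h5 : f j + f (n - j) ≤ 1 := by
            rw [hji2, show n - (n - i) = i by omega]
            omega
          have h4 : n.choose j * (f j + f (n - j)) ≤ n.choose j * 1 := Nat.mul_le_mul_left _ h5
          omega
        · rw [if_neg hji2]
          have h5 := hf2 j (by omega) (by omega)
          have h4 : n.choose j * (f j + f (n - j)) ≤ n.choose j * 2 := Nat.mul_le_mul_left _ h5
          omega
  simp only [sum_add_distrib] at h3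
  rw [sum_ite_eq' (Icc 1 (n - 1)) i, sum_ite_eq' (Icc 1 (n - 1)) (n - i), if_pos (mem_Icc.2 ⟨by omega, by omega⟩),
    if_pos (mem_Icc.2 ⟨by omega, by omega⟩), Nat.choose_symm (by omega : i ≤ n), ← mul_sum, ← sum_filter, ← sum_filter, h1] at h3
  have h6 : (Icc 1 (n - 1)).filter (fun j => j ≤ K) = Icc 1 K := by
    ext j
    rw [mem_filter, mem_Icc, mem_Icc]
    omega
  have h7 : ∑ j ∈ (Icc 1 (n - 1)).filter (fun j => n - K ≤ j), n.choose j = ∑ j ∈ Icc 1 K, n.choose j := by
    refine sum_nbij' (fun j => n - j) (fun j => n - j) ?_ ?_ ?_ ?_ ?_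
    · intro j hj
      rw [mem_filter, mem_Icc] at hj
      rw [mem_Icc]
      omega
    · intro j hj
      rw [mem_Icc] at hj
      rw [mem_filter, mem_Icc]
      omega
    · intro j hj
      rw [mem_filter, mem_Icc] at hj
      show n - (n - j) = j
      omega
    · intro j hj
      rw [mem_Icc] at hj
      show n - (n - j) = j
      omega
    · intro j hj
      rw [mem_filter, mem_Icc] at hj
      show n.choose j = n.choose (n - j)
      rw [Nat.choose_symm (by omega)]
  rw [h6, h7] at h3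
  have h8 := geo n K hK
  have h9 := choose_up n (K + 1) i (by omega) hi
  omega

variable {n : ℕ} {B : Finset (Fin n → Fin 3)}

theorem M_sum (P : ℕ → Prop) [DecidablePred P] (hP : ∀ i, P i → 1 ≤ i ∧ i ≤ n - 1) :
    M n P = ∑ j ∈ Icc 1 (n - 1), n.choose j * (if P j then 1 else 0) := by
  classical
  have h1 : M n P = ∑ S : Finset (Fin n), (if P #S then 1 else 0) := by
    unfold M
    rw [card_filter]
    exact sum_congr rfl fun S _ => by split_ifs <;> rfl
  have h2 := Finset.sum_powerset_apply_card (fun k : ℕ => if P k then 1 else 0) (x := (univ : Finset (Fin n)))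
  rw [powerset_univ, card_univ, Fintype.card_fin] at h2
  rw [h1, h2]
  symm
  have h3 : Icc 1 (n - 1) ⊆ range (n + 1) := by
    intro j hj
    rw [mem_Icc] at hj
    rw [mem_range]
    omega
  refine (sum_subset h3 (f := fun j => n.choose j * (if P j then 1 else 0)) fun j _ hj => ?_).trans ?_
  · rw [if_neg (fun h => hj (mem_Icc.2 (hP j h))), mul_zero]
  · exact sum_congr rfl fun j _ => by rw [smul_eq_mul]

theorem part' (B : Finset (Fin n → Fin 3)) (hn : 1 ≤ n) (x y z : Fin 3) (hd : ∀ d : Fin 3, d = x ∨ d = y ∨ d = z) (hxy : x ≠ y)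
    (Q : ℕ → Prop) [DecidablePred Q] (hQ : ∀ u ∈ B, #{t | u t = z} = 0 → #{t | u t = x} = n - #{t | u t = y} → Q #{t | u t = y}) :
    #((B.filter (fun u => ¬ ∃ d, ∀ t, u t = d)).filter (fun u => ∀ t, u t ≠ z)) ≤
      ∑ j ∈ Icc 1 (n - 1), n.choose j * (if Q j then 1 else 0) := by
  classical
  have h1 := part (B := B.filter (fun u => ¬ ∃ d, ∀ t, u t = d)) x y z hd hxy (fun i => (1 ≤ i ∧ i ≤ n - 1) ∧ Q i) (by
    intro u hu hz hx
    rw [mem_filter] at hu
    refine ⟨⟨?_, ?_⟩, hQ u hu.1 hz hx⟩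
    · by_contra hcon
      refine hu.2 ⟨x, fun t => ?_⟩
      have h2 : #{t | u t = y} = 0 := by omega
      rw [card_eq_zero, filter_eq_empty_iff] at h2 hz
      exact ((hd (u t)).resolve_right (not_or.2 ⟨h2 (mem_univ t), hz (mem_univ t)⟩))
    · by_contra hcon
      refine hu.2 ⟨y, fun t => ?_⟩
      have h2 : #{t | u t = x} = 0 := by omega
      rw [card_eq_zero, filter_eq_empty_iff] at h2 hz
      exact ((hd (u t)).resolve_left (h2 (mem_univ t))).resolve_right (hz (mem_univ t)))
  refine h1.trans (le_of_eq ?_)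
  rw [M_sum (fun i => (1 ≤ i ∧ i ≤ n - 1) ∧ Q i) (fun i h => h.1)]
  refine sum_congr rfl fun j hj => ?_
  rw [mem_Icc] at hj
  by_cases h : Q j
  · rw [if_pos ⟨hj, h⟩, if_pos h]
  · rw [if_neg (fun h' => h h'.2), if_neg h]

theorem consts (hF : FreeW B) (hn : 1 ≤ n) : #(B.filter (fun u => ∃ d, ∀ t, u t = d)) ≤ 2 := by
  classical
  have h1 : B.filter (fun u => ∃ d, ∀ t, u t = d) ⊆ (univ : Finset (Fin 3)).image (fun d => fun _ : Fin n => d) := by
    intro u hu
    rw [mem_filter] at hu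
    obtain ⟨d, hd⟩ := hu.2
    rw [mem_image]
    exact ⟨d, mem_univ _, funext fun t => (hd t).symm⟩
  obtain ⟨d, hd⟩ : ∃ d : Fin 3, (fun _ : Fin n => d) ∉ B := by
    by_contra hcon
    push Not at hcon
    have h2 := hF _ (hcon 0) _ (hcon 1) _ (hcon 2) (by
      unfold DS.val
      rw [← sum_add_distrib, mul_sum]
      refine sum_congr rfl fun i _ => ?_
      simp)
    have h3 := congrFun h2 ⟨0, hn⟩
    revert h3
    decide
  have h4 : B.filter (fun u => ∃ d, ∀ t, u t = d) ⊆ ((univ : Finset (Fin 3)).erase d).image (fun d => fun _ : Fin n => d) := by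
    intro u hu
    have h5 := h1 hu
    rw [mem_image] at h5
    obtain ⟨e, _, rfl⟩ := h5
    rw [mem_image]
    refine ⟨e, mem_erase.2 ⟨fun h => hd ?_, mem_univ _⟩, rfl⟩
    rw [mem_filter] at hu
    rw [← h]
    exact hu.1
  refine (card_le_card h4).trans (card_image_le.trans ?_)
  rw [card_erase_of_mem (mem_univ _), card_univ, Fintype.card_fin]

theorem count_le (hF : FreeW B) (hS : SymW B) (hn : 2 ≤ n) : #B ≤ 2 + ∑ j ∈ Icc 1 (n - 1), n.choose j * ff B j := by
  classical
  have h1 := part' B (by omega) 0 1 2 (by decide) (by decide) (fun i => PA B i) (by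
    intro u hu h2 h0
    have h := Ty.of hS hu
    rwa [h2, h0] at h)
  have h2 := part' B (by omega) 1 2 0 (by decide) (by decide) (fun i => PC B i) (by
    intro u hu h2 h0
    have h := Ty.of hS hu
    rwa [h2, h0] at h)
  have h3 := part' B (by omega) 0 2 1 (by decide) (by decide) (fun i => PE B i) (by
    intro u hu h2 h0
    have h := Ty.of hS hu
    rwa [h2, h0] at h)
  have h0 := consts hF (by omega : 1 ≤ n)
  have h4 : B ⊆ (B.filter (fun u => ∃ d, ∀ t, u t = d)) ∪
      ((B.filter (fun u => ¬ ∃ d, ∀ t, u t = d)).filter (fun u => ∀ t, u t ≠ 2) ∪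
      (B.filter (fun u => ¬ ∃ d, ∀ t, u t = d)).filter (fun u => ∀ t, u t ≠ 0) ∪
      (B.filter (fun u => ¬ ∃ d, ∀ t, u t = d)).filter (fun u => ∀ t, u t ≠ 1)) := by
    intro u hu
    simp only [mem_union, mem_filter]
    by_contra hcon
    have hnc : ¬ ∃ d, ∀ t, u t = d := fun h => hcon (Or.inl ⟨hu, h⟩)
    have h5 : ∀ d : Fin 3, (¬ ∀ t, u t ≠ d) → ∃ k, #{t | u t = d} = k + 1 := by
      intro d hd
      push Not at hd
      obtain ⟨t, ht⟩ := hd
      have h6 : 0 < #{t | u t = d} := card_pos.2 ⟨t, by rw [mem_filter]; exact ⟨mem_univ _, ht⟩⟩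
      exact ⟨#{t | u t = d} - 1, by omega⟩
    obtain ⟨i, hi⟩ := h5 0 fun h => hcon (Or.inr (Or.inl (Or.inr ⟨⟨hu, hnc⟩, h⟩)))
    obtain ⟨j, hj⟩ := h5 1 fun h => hcon (Or.inr (Or.inr ⟨⟨hu, hnc⟩, h⟩))
    obtain ⟨k, hk⟩ := h5 2 fun h => hcon (Or.inr (Or.inl (Or.inl ⟨⟨hu, hnc⟩, h⟩)))
    have h := Ty.of hS hu
    rw [hi, hj, hk] at h
    exact full hF hS h
  have h5 := (card_le_card h4).trans ((card_union_le _ _).trans (Nat.add_le_add_left ((card_union_le _ _).trans
    (Nat.add_le_add_right (card_union_le _ _) _)) _))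
  have h6 : ∑ j ∈ Icc 1 (n - 1), n.choose j * ff B j =
      ∑ j ∈ Icc 1 (n - 1), n.choose j * (if PA B j then 1 else 0) + ∑ j ∈ Icc 1 (n - 1), n.choose j * (if PC B j then 1 else 0) +
      ∑ j ∈ Icc 1 (n - 1), n.choose j * (if PE B j then 1 else 0) := by
    rw [← sum_add_distrib, ← sum_add_distrib]
    refine sum_congr rfl fun j _ => ?_
    unfold ff
    ring
  omega

/-- **the exact upper bound** -/
theorem exact3 (hF : FreeW B) (hS : SymW B) (hn : 200 ≤ n) : #B ≤ 2 ^ n := by
  classical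
  refine (count_le hF hS (by omega)).trans ?_
  by_cases hbad : ∃ K, 1 ≤ K ∧ 2 * K < n ∧ 3 ≤ ff B K + ff B (n - K)
  · obtain ⟨K, hK1, hK2, hK3, hmax⟩ : ∃ K, 1 ≤ K ∧ 2 * K < n ∧ 3 ≤ ff B K + ff B (n - K) ∧
        ∀ j, K < j → 2 * j < n → ff B j + ff B (n - j) ≤ 2 := by
      obtain ⟨K0, h0⟩ := hbad
      let P : ℕ → Prop := fun K => 1 ≤ K ∧ 2 * K < n ∧ 3 ≤ ff B K + ff B (n - K)
      have h1 := Nat.findGreatest_spec (P := P) (m := K0) (n := n) (by omega) h0
      refine ⟨Nat.findGreatest P n, h1.1, h1.2.1, h1.2.2, fun j hj h2j => ?_⟩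
      by_contra hcon
      have h2 : P j := ⟨by omega, h2j, by omega⟩
      have h3 := Nat.le_findGreatest (P := P) (m := j) (n := n) (by omega) h2
      omega
    have hb := ff_bad hF hS hK1 (by omega) hK3
    have h3K := lvl hF hS hn hK2 hb
    obtain ⟨i, hKi, h2i, hi⟩ : ∃ i, K < i ∧ 2 * i < n ∧ ff B i + ff B (n - i) ≤ 1 := by
      by_contra hcon
      push Not at hcon
      refine star hF hS hn hK1 h3K hb fun j hj h2j => ?_
      have h4 := hcon j hj h2j
      have h5 := hmax j hj h2j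
      omega
    refine sum_three n (ff B) K i h3K hKi h2i (fun j h1 h2 => ff_le hF hS h1 (by omega)) (fun j h1 h2 => ?_) hi
    rcases lt_trichotomy (2 * j) n with h | h | h
    · exact hmax j h1 h
    · have h6 := ff_mid hF hS (j := j) (by omega) h
      rw [show n - j = j by omega]
      omega
    · have h6 := hmax (n - j) (by omega) (by omega)
      rw [show n - (n - j) = j by omega] at h6
      omega
  · push Not at hbad
    refine sum_two n (by omega) (ff B) fun j h1 h2 => ?_
    rcases lt_trichotomy (2 * j) n with h | h | h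
    · have := hbad j h1 h
      omega
    · have h6 := ff_mid hF hS (j := j) (by omega) h
      rw [show n - j = j by omega]
      omega
    · have h6 := hbad (n - j) (by omega) (by omega)
      rw [show n - (n - j) = j by omega] at h6
      omega

end Pool.Agent.L5helper7.D3
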